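import Pool.Agent.H83.UE.Targets

/-!
# Board uda_modules, row LJ1: the improved Lojasiewicz exponent
-/

set_option autoImplicit false

open Polynomial MeasureTheory Filter Topology Set
open Pool.Agent.H83.UE

namespace Pool.Agent.H10.UDA

theorem hev_smul (D : ℕ) (A : ℂ[X]) (a : ℂ) (v : ℂ × ℂ) : hev D A (a • v) = a ^ D * hev D A v := by
  unfold hev
  rw [Finset.mul_sum]
  refine Finset.sum_congr rfl fun i hi => ?_
  have hi' : i ≤ D := by
    rw [Finset.mem_range] at hi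
    omega
  have e : a ^ D = a ^ i * a ^ (D - i) := by
    rw [← pow_add]
    congr 1
    omega
  simp only [Prod.smul_fst, Prod.smul_snd, smul_eq_mul, mul_pow]
  rw [e]
  ring

theorem hev_cont (D : ℕ) (A : ℂ[X]) : Continuous (hev D A) := by
  unfold hev
  fun_prop

theorem hev_lin (D : ℕ) (A B : ℂ[X]) (a b : ℂ) (v : ℂ × ℂ) :
    hev D (C a * A - C b * B) v = a * hev D A v - b * hev D B v := by
  unfold hev
  rw [Finset.mul_sum, Finset.mul_sum, ← Finset.sum_sub_distrib]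
  refine Finset.sum_congr rfl fun i _ => ?_
  rw [coeff_sub, coeff_C_mul, coeff_C_mul]
  ring

theorem wd_cont : Continuous fun p : (ℂ × ℂ) × (ℂ × ℂ) => wd p.1 p.2 := by
  unfold wd
  fun_prop

theorem wd_tendsto {α : Type} {l : Filter α} {f g : α → ℂ × ℂ} {a b : ℂ × ℂ}
    (hf : Tendsto f l (𝓝 a)) (hg : Tendsto g l (𝓝 b)) :
    Tendsto (fun n => wd (f n) (g n)) l (𝓝 (wd a b)) := by
  have h := (wd_cont.tendsto (a, b)).comp (hf.prodMk_nhds hg)
  exact h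

theorem wd_smul (v w : ℂ × ℂ) (a : ℂ) : wd v (a • w) = a * wd v w := by
  unfold wd
  simp only [Prod.smul_fst, Prod.smul_snd, smul_eq_mul]
  ring

theorem smul_wd (v w : ℂ × ℂ) (a : ℂ) : wd (a • v) w = a * wd v w := by
  unfold wd
  simp only [Prod.smul_fst, Prod.smul_snd, smul_eq_mul]
  ring

theorem wd_le (v w : ℂ × ℂ) : ‖wd v w‖ ≤ 2 * (‖v‖ * ‖w‖) := by
  unfold wd
  have h1 := norm_sub_le (v.1 * w.2) (v.2 * w.1)
  rw [norm_mul, norm_mul] at h1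
  have a := norm_fst_le v
  have b := norm_snd_le v
  have c := norm_fst_le w
  have d := norm_snd_le w
  have e1 := mul_le_mul a d (norm_nonneg _) (norm_nonneg _)
  have e2 := mul_le_mul b c (norm_nonneg _) (norm_nonneg _)
  linarith

theorem par {v w : ℂ × ℂ} (hv : v ≠ 0) (h : wd v w = 0) : ∃ t : ℂ, w = t • v := by
  unfold wd at h
  by_cases h1 : v.1 = 0
  · have h2 : v.2 ≠ 0 := fun h2 => hv (Prod.ext h1 h2)
    refine ⟨w.2 / v.2, Prod.ext ?_ ?_⟩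
    · rw [h1] at h
      have : v.2 * w.1 = 0 := by linear_combination -h
      rcases mul_eq_zero.1 this with h3 | h3
      · exact absurd h3 h2
      · simp [h1, h3]
    · simp [h2]
  · refine ⟨w.1 / v.1, Prod.ext ?_ ?_⟩
    · simp [h1]
    · simp only [Prod.smul_snd, smul_eq_mul]
      field_simp
      linear_combination h

theorem exv {w : ℂ × ℂ} (hw : w ≠ 0) : ∃ v : ℂ × ℂ, wd v w ≠ 0 := by
  by_cases h1 : w.1 = 0
  · refine ⟨(1, 0), ?_⟩
    have h2 : w.2 ≠ 0 := fun h2 => hw (Prod.ext h1 h2)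
    simpa [wd] using h2
  · refine ⟨(0, 1), ?_⟩
    simpa [wd] using h1

theorem claim1 {D : ℕ} {H : ℂ × ℂ → ℂ × ℂ} (hH : ∀ z : ℂ × ℂ, z ≠ 0 → ∃ w, wd (H w) z ≠ 0) :
    ∃ p : ℝ, 0 < p ∧ ∀ (z : ℂ × ℂ) (x : Fin D → ℂ × ℂ) (c : ℂ), ‖z‖ = 1 → (∀ i, ‖x i‖ = 1) →
      (∀ v, wd (H v) z = c * ∏ i, wd v (x i)) → p ≤ ‖c‖ := by
  by_contra hcon
  push Not at hcon
  have h := fun n : ℕ => hcon (1 / ((n : ℝ) + 1)) (by positivity)
  choose z x c hz hx hf hs using h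
  obtain ⟨z0, hmem, φ, hφ, hlim⟩ := (isCompact_sphere (0 : ℂ × ℂ) 1).tendsto_subseq (x := z)
    (fun n => by simpa using hz n)
  have hz0 : z0 ≠ 0 := by
    intro h0
    rw [h0] at hmem
    simp at hmem
  obtain ⟨v, hv⟩ := hH z0 hz0
  have l1 : Tendsto (fun n => wd (H v) (z (φ n))) atTop (𝓝 (wd (H v) z0)) :=
    wd_tendsto tendsto_const_nhds hlim
  have l2 : Tendsto (fun n => wd (H v) (z (φ n))) atTop (𝓝 0) := by
    have l3 : Tendsto (fun n : ℕ => 1 / ((φ n : ℝ) + 1) * (2 * ‖v‖) ^ D) atTop (𝓝 0) := by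
      have := (tendsto_one_div_add_atTop_nhds_zero_nat.comp hφ.tendsto_atTop).mul_const
        ((2 * ‖v‖) ^ D)
      rw [zero_mul] at this
      exact this
    refine squeeze_zero_norm (fun n => ?_) l3
    rw [hf, norm_mul, norm_prod]
    refine mul_le_mul (hs _).le ?_ (by positivity) (by positivity)
    calc ∏ i, ‖wd v (x (φ n) i)‖ ≤ ∏ _i : Fin D, (2 * ‖v‖) := by
          refine Finset.prod_le_prod (fun i _ => norm_nonneg _) fun i _ => ?_
          have := wd_le v (x (φ n) i)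
          rwa [hx, mul_one] at this
      _ = (2 * ‖v‖) ^ D := by simp
  exact hv (tendsto_nhds_unique l1 l2)

theorem claim2 {D : ℕ} {H : ℂ × ℂ → ℂ × ℂ} (hN : NTR D H) :
    ∃ δ : ℝ, 0 < δ ∧ ∀ (z w : ℂ × ℂ) (x : Fin D → ℂ × ℂ) (c : ℂ), ‖z‖ = 1 → ‖w‖ = 1 →
      (∀ i, ‖x i‖ = 1) → (∀ v, wd (H v) z = c * ∏ i, wd v (x i)) → ∃ i, δ ≤ ‖wd w (x i)‖ := by
  by_contra hcon
  push Not at hcon
  have h := fun n : ℕ => hcon (1 / ((n : ℝ) + 1)) (by positivity)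
  choose z w x c hz hw hx hf hs using h
  have hK : IsCompact (Metric.sphere (0 : ℂ × ℂ) 1 ×ˢ (Metric.sphere (0 : ℂ × ℂ) 1 ×ˢ
      (Set.pi univ fun _ : Fin D => Metric.sphere (0 : ℂ × ℂ) 1))) :=
    (isCompact_sphere _ _).prod ((isCompact_sphere _ _).prod
      (isCompact_univ_pi fun _ => isCompact_sphere _ _))
  obtain ⟨⟨z0, w0, x0⟩, hmem, φ, hφ, hlim⟩ := hK.tendsto_subseq (x := fun n => (z n, w n, x n))
    (fun n => ⟨by simpa using hz n, by simpa using hw n, fun i _ => by simpa using hx n i⟩)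
  have hz0 : z0 ≠ 0 := by
    intro h0
    have := hmem.1
    rw [h0] at this
    simp at this
  have hw0 : w0 ≠ 0 := by
    intro h0
    have := hmem.2.1
    rw [h0] at this
    simp at this
  have hx0 : ∀ i, x0 i ≠ 0 := by
    intro i h0
    have : x0 i ∈ Metric.sphere (0 : ℂ × ℂ) 1 := hmem.2.2 i (mem_univ i)
    rw [h0] at this
    simp at this
  have lz : Tendsto (fun n => z (φ n)) atTop (𝓝 z0) :=
    (continuous_fst.tendsto ((z0, w0, x0) : (ℂ × ℂ) × (ℂ × ℂ) × (Fin D → ℂ × ℂ))).comp hlim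
  have lw : Tendsto (fun n => w (φ n)) atTop (𝓝 w0) :=
    ((continuous_fst.comp continuous_snd).tendsto
      ((z0, w0, x0) : (ℂ × ℂ) × (ℂ × ℂ) × (Fin D → ℂ × ℂ))).comp hlim
  have lx : ∀ i, Tendsto (fun n => x (φ n) i) atTop (𝓝 (x0 i)) := fun i =>
    (((continuous_apply i).comp (continuous_snd.comp continuous_snd)).tendsto
      ((z0, w0, x0) : (ℂ × ℂ) × (ℂ × ℂ) × (Fin D → ℂ × ℂ))).comp hlim
  have lwx : ∀ (v : ℂ × ℂ) (i : Fin D),
      Tendsto (fun n => wd v (x (φ n) i)) atTop (𝓝 (wd v (x0 i))) := fun v i =>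
    wd_tendsto tendsto_const_nhds (lx i)
  have lP : ∀ v : ℂ × ℂ,
      Tendsto (fun n => ∏ i, wd v (x (φ n) i)) atTop (𝓝 (∏ i, wd v (x0 i))) := fun v =>
    tendsto_finsetProd _ fun i _ => lwx v i
  have hwx : ∀ i, wd w0 (x0 i) = 0 := by
    intro i
    have l1 : Tendsto (fun n => wd (w (φ n)) (x (φ n) i)) atTop (𝓝 (wd w0 (x0 i))) :=
      wd_tendsto lw (lx i)
    have l3 : Tendsto (fun n : ℕ => 1 / ((φ n : ℝ) + 1)) atTop (𝓝 0) :=
      tendsto_one_div_add_atTop_nhds_zero_nat.comp hφ.tendsto_atTop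
    have l2 : Tendsto (fun n => wd (w (φ n)) (x (φ n) i)) atTop (𝓝 0) :=
      squeeze_zero_norm (fun n => (hs (φ n) i).le) l3
    exact tendsto_nhds_unique l1 l2
  choose t ht using fun i => par hw0 (hwx i)
  have ht0 : ∀ i, t i ≠ 0 := by
    intro i h0
    refine hx0 i ?_
    rw [ht i, h0, zero_smul]
  have hprod : ∀ v : ℂ × ℂ, ∏ i, wd v (x0 i) = (∏ i, t i) * wd v w0 ^ D := by
    intro v
    have : ∀ i, wd v (x0 i) = t i * wd v w0 := fun i => by rw [ht i, wd_smul]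
    simp only [this]
    rw [Finset.prod_mul_distrib, Finset.prod_const, Finset.card_univ, Fintype.card_fin]
  obtain ⟨v1, hv1⟩ := exv hw0
  have hP1 : ∏ i, wd v1 (x0 i) ≠ 0 := by
    rw [hprod]
    exact mul_ne_zero (Finset.prod_ne_zero_iff.2 fun i _ => ht0 i) (pow_ne_zero _ hv1)
  have lH : ∀ v : ℂ × ℂ, Tendsto (fun n => wd (H v) (z (φ n))) atTop (𝓝 (wd (H v) z0)) := fun v =>
    wd_tendsto tendsto_const_nhds lz
  have lc : Tendsto (fun n => c (φ n)) atTop (𝓝 (wd (H v1) z0 / ∏ i, wd v1 (x0 i))) := by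
    have l1 := (lH v1).div (lP v1) hP1
    refine l1.congr' ?_
    filter_upwards [(lP v1).eventually_ne hP1] with n hn
    rw [Pi.div_apply, hf, mul_div_assoc, div_self hn, mul_one]
  refine hN z0 w0 hz0 hw0 (wd (H v1) z0 / (∏ i, wd v1 (x0 i)) * ∏ i, t i) fun v => ?_
  have l1 := lc.mul (lP v)
  have l2 : Tendsto (fun n => c (φ n) * ∏ i, wd v (x (φ n) i)) atTop (𝓝 (wd (H v) z0)) := by
    refine (lH v).congr fun n => ?_
    exact hf (φ n) v
  rw [tendsto_nhds_unique l2 l1, hprod v]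
  ring

theorem prod_ge {D : ℕ} (a : Fin D → ℝ) (ha : ∀ i, 0 ≤ a i) {δ : ℝ} {i0 : Fin D}
    (h0 : δ ≤ a i0) : ∃ i, δ * a i ^ (D - 1) ≤ ∏ j, a j := by
  obtain ⟨i, -, hi⟩ := Finset.exists_min_image Finset.univ a ⟨i0, Finset.mem_univ _⟩
  refine ⟨i, ?_⟩
  rw [← Finset.mul_prod_erase Finset.univ a (Finset.mem_univ i0)]
  refine mul_le_mul h0 ?_ (pow_nonneg (ha i) _) (ha i0)
  have e : (Finset.univ.erase i0).card = D - 1 := by
    rw [Finset.card_erase_of_mem (Finset.mem_univ _), Finset.card_univ, Fintype.card_fin]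
  rw [← e]
  rw [← Finset.prod_const]
  exact Finset.prod_le_prod (fun j _ => ha i) fun j _ => hi j (Finset.mem_univ j)

theorem cd_smul {a b : ℂ} (ha : a ≠ 0) (hb : b ≠ 0) (v w : ℂ × ℂ) :
    cd (a • v) (b • w) = cd v w := by
  unfold cd
  rw [smul_wd, wd_smul, norm_mul, norm_mul, norm_smul, norm_smul]
  have h1 : ‖a‖ ≠ 0 := norm_ne_zero_iff.2 ha
  have h2 : ‖b‖ ≠ 0 := norm_ne_zero_iff.2 hb
  have e : ‖a‖ * ‖v‖ * (‖b‖ * ‖w‖) = (‖a‖ * ‖b‖) * (‖v‖ * ‖w‖) := by ring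
  rw [e, ← mul_assoc ‖a‖, mul_div_mul_left _ _ (mul_ne_zero h1 h2)]

theorem unit_ex {z : ℂ × ℂ} (hz : z ≠ 0) : ∃ a : ℂ, a ≠ 0 ∧ ‖a • z‖ = 1 := by
  have h : ‖z‖ ≠ 0 := norm_ne_zero_iff.2 hz
  refine ⟨((‖z‖⁻¹ : ℝ) : ℂ), ?_, ?_⟩
  · rw [Ne, Complex.ofReal_eq_zero]
    exact inv_ne_zero h
  · rw [norm_smul, Complex.norm_real, norm_inv, norm_norm, inv_mul_cancel₀ h]

theorem pf_LJ1 (h1 : T_BF) : T_LJ1 := by
  intro D A B _ hA hB hne hz hN
  obtain ⟨H, hH⟩ : ∃ H : ℂ × ℂ → ℂ × ℂ, H = fun w => (hev D A w, hev D B w) := ⟨_, rfl⟩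
  rw [← hH] at hN ⊢
  have hz' : ∀ z : ℂ × ℂ, z ≠ 0 → ∃ w, wd (H w) z ≠ 0 := by
    rw [hH]
    exact hz
  have hne' : ∀ w : ℂ × ℂ, w ≠ 0 → H w ≠ 0 := by
    rw [hH]
    exact hne
  obtain ⟨p, hp, h_1⟩ := claim1 (D := D) hz'
  obtain ⟨δ, hδ, h_2⟩ := claim2 hN
  have hHc : Continuous H := by
    rw [hH]
    exact (hev_cont D A).prodMk (hev_cont D B)
  have hHs : ∀ (a : ℂ) (w : ℂ × ℂ), H (a • w) = a ^ D • H w := by
    intro a w
    rw [hH]
    exact Prod.ext (hev_smul D A a w) (hev_smul D B a w)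
  obtain ⟨M, hM⟩ := (isCompact_sphere (0 : ℂ × ℂ) 1).bddAbove_image (f := fun w => ‖H w‖)
    hHc.norm.continuousOn
  have hM' : ∀ w, ‖w‖ = 1 → ‖H w‖ ≤ max M 1 := fun w hw =>
    (hM ⟨w, by simpa using hw, rfl⟩).trans (le_max_left _ _)
  have hM1 : 0 < max M 1 := lt_of_lt_of_le one_pos (le_max_right _ _)
  refine ⟨p * δ / max M 1, by positivity, fun z hz0 => ?_⟩
  obtain ⟨a, ha, hz1⟩ := unit_ex hz0
  have hlin : ∀ v, hev D (C (a • z).2 * A - C (a • z).1 * B) v = wd (H v) (a • z) := by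
    intro v
    rw [hev_lin, hH]
    simp only [wd]
    ring
  have haz : a • z ≠ 0 := smul_ne_zero ha hz0
  have hA0 : C (a • z).2 * A - C (a • z).1 * B ≠ 0 := by
    intro h0
    obtain ⟨w, hw⟩ := hz' (a • z) haz
    rw [← hlin, h0] at hw
    exact hw (by simp [hev])
  have hdeg : (C (a • z).2 * A - C (a • z).1 * B).natDegree ≤ D :=
    (natDegree_sub_le _ _).trans (max_le ((natDegree_C_mul_le _ _).trans hA)
      ((natDegree_C_mul_le _ _).trans hB))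
  obtain ⟨c, _, x, hx, hf⟩ := h1 D _ hA0 hdeg
  have hf' : ∀ v, wd (H v) (a • z) = c * ∏ i, wd v (x i) := fun v => by rw [← hlin, hf]
  refine ⟨x, fun i h0 => ?_, fun w hw => ?_⟩
  · have := hx i
    rw [h0, norm_zero] at this
    exact zero_ne_one this
  obtain ⟨b, hb, hw1⟩ := unit_ex hw
  obtain ⟨i0, hi0⟩ := h_2 (a • z) (b • w) x c hz1 hw1 hx hf'
  obtain ⟨i, hi⟩ := prod_ge (fun i => ‖wd (b • w) (x i)‖) (fun _ => norm_nonneg _) hi0
  refine ⟨i, ?_⟩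
  have e1 : cd w (x i) = ‖wd (b • w) (x i)‖ := by
    have := cd_smul hb one_ne_zero w (x i)
    rw [← this, one_smul]
    unfold cd
    rw [hw1, hx, mul_one, div_one]
  have e2 : cd (H w) z = ‖wd (H (b • w)) (a • z)‖ / ‖H (b • w)‖ := by
    have := cd_smul (pow_ne_zero D hb) ha (H w) z
    rw [← this, ← hHs]
    unfold cd
    rw [hz1, mul_one]
  have hH0 : 0 < ‖H (b • w)‖ := norm_pos_iff.2 (hne' _ (smul_ne_zero hb hw))
  rw [e1, e2, hf', norm_mul, norm_prod, div_mul_eq_mul_div]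
  refine div_le_div₀ (by positivity) ?_ hH0 (hM' _ hw1)
  rw [mul_assoc]
  exact mul_le_mul (h_1 (a • z) x c hz1 hx hf') hi (by positivity) (norm_nonneg _)

end Pool.Agent.H10.UDA
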